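import Mathlib
import Pool.Agent.V11319.BraidLower
import Pool.Agent.V11319.BraidUpper

/-!
# Minimal admissible quotients of the two strand pure braid group of a closed surface

For every genus `b ≥ 2` the least order `G_b` of an admissible quotient of `P_2(Σ_b)` is
`2 ^ (2 b + 1)`.

The group `P_2(Σ_b)` is given by its standard presentation (Gonçalves and Guaschi), with
generators `ρ_{1j}, τ_{1j}, ρ_{2j}, τ_{2j}` for `1 ≤ j ≤ b` and `A_{12}`; here the index `j`
runs through `Fin b`, and `⁅x, y⁆ = x y x⁻¹ y⁻¹`.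
-/

namespace Pool.Agent.Results.MP_97f678_al.MinQuotient

open scoped commutatorElement

/-- The generators of the presentation. -/
inductive Gen (b : ℕ) : Type
  | rho1 (j : Fin b)
  | tau1 (j : Fin b)
  | rho2 (j : Fin b)
  | tau2 (j : Fin b)
  | a12

/-- `ρ_{1j}` in the free group on the generators. -/
abbrev r1 {b : ℕ} (j : Fin b) : FreeGroup (Gen b) := FreeGroup.of (Gen.rho1 j)
/-- `τ_{1j}` in the free group on the generators. -/
abbrev t1 {b : ℕ} (j : Fin b) : FreeGroup (Gen b) := FreeGroup.of (Gen.tau1 j)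
/-- `ρ_{2j}` in the free group on the generators. -/
abbrev r2 {b : ℕ} (j : Fin b) : FreeGroup (Gen b) := FreeGroup.of (Gen.rho2 j)
/-- `τ_{2j}` in the free group on the generators. -/
abbrev t2 {b : ℕ} (j : Fin b) : FreeGroup (Gen b) := FreeGroup.of (Gen.tau2 j)
/-- `A_{12}` in the free group on the generators. -/
abbrev aa (b : ℕ) : FreeGroup (Gen b) := FreeGroup.of Gen.a12

/-- The defining relations: `Rel b x y` is the relation `x = y`. -/
inductive Rel (b : ℕ) : FreeGroup (Gen b) → FreeGroup (Gen b) → Prop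
  /-- `[ρ_{1b}⁻¹, τ_{1b}⁻¹] τ_{1b}⁻¹ ⋯ [ρ_{11}⁻¹, τ_{11}⁻¹] τ_{11}⁻¹ (τ_{11} ⋯ τ_{1b}) = A_{12}` -/
  | surface1 : Rel b
      (((List.finRange b).reverse.map fun j => ⁅(r1 j)⁻¹, (t1 j)⁻¹⁆ * (t1 j)⁻¹).prod *
        ((List.finRange b).map fun j => t1 j).prod) (aa b)
  /-- `[ρ_{21}⁻¹, τ_{21}] τ_{21} ⋯ [ρ_{2b}⁻¹, τ_{2b}] τ_{2b} (τ_{2b}⁻¹ ⋯ τ_{21}⁻¹) = A_{12}⁻¹` -/
  | surface2 : Rel b
      (((List.finRange b).map fun j => ⁅(r2 j)⁻¹, t2 j⁆ * t2 j).prod *
        ((List.finRange b).reverse.map fun j => (t2 j)⁻¹).prod) (aa b)⁻¹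
  | r1r2_lt (j k : Fin b) (h : j < k) : Rel b ⁅r1 j, r2 k⁆ 1
  | r1r2_eq (j : Fin b) : Rel b ⁅r1 j, r2 j⁆ 1
  | r1r2_gt (j k : Fin b) (h : k < j) :
      Rel b ⁅r1 j, r2 k⁆ ((aa b)⁻¹ * r2 k * (r2 j)⁻¹ * aa b * r2 j * (r2 k)⁻¹)
  | r1t2_lt (j k : Fin b) (h : j < k) : Rel b ⁅r1 j, t2 k⁆ 1
  | r1t2_eq (j : Fin b) : Rel b ⁅r1 j, t2 j⁆ (aa b)⁻¹
  | r1t2_gt (j k : Fin b) (h : k < j) : Rel b ⁅r1 j, t2 k⁆ ⁅(aa b)⁻¹, t2 k⁆
  | r1a (j : Fin b) : Rel b ⁅r1 j, aa b⁆ ⁅(r2 j)⁻¹, aa b⁆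
  | t1r2_lt (j k : Fin b) (h : j < k) : Rel b ⁅t1 j, r2 k⁆ 1
  | t1r2_eq (j : Fin b) : Rel b ⁅t1 j, r2 j⁆ ((t2 j)⁻¹ * aa b * t2 j)
  | t1r2_gt (j k : Fin b) (h : k < j) : Rel b ⁅t1 j, r2 k⁆ ⁅(t2 j)⁻¹, aa b⁆
  | t1t2_lt (j k : Fin b) (h : j < k) : Rel b ⁅t1 j, t2 k⁆ 1
  | t1t2_eq (j : Fin b) : Rel b ⁅t1 j, t2 j⁆ ⁅(t2 j)⁻¹, aa b⁆
  | t1t2_gt (j k : Fin b) (h : k < j) :
      Rel b ⁅t1 j, t2 k⁆
        ((t2 j)⁻¹ * aa b * t2 j * (aa b)⁻¹ * t2 k * aa b * (t2 j)⁻¹ * (aa b)⁻¹ * t2 j * (t2 k)⁻¹)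
  | t1a (j : Fin b) : Rel b ⁅t1 j, aa b⁆ ⁅(t2 j)⁻¹, aa b⁆

/-- The relators `x y⁻¹` of the relations `x = y`. -/
def relators (b : ℕ) : Set (FreeGroup (Gen b)) := {w | ∃ x y, Rel b x y ∧ w = x * y⁻¹}

/-- The pure braid group `P_2(Σ_b)` on two strands of the closed orientable surface of
genus `b`, by its presentation. -/
abbrev P2 (b : ℕ) : Type := PresentedGroup (relators b)

/-- The braid `A_{12}` in `P_2(Σ_b)`. -/
def A12 (b : ℕ) : P2 b := PresentedGroup.of Gen.a12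

/-- `HasAdmissibleQuotient b n`: some finite group of order `n` is an admissible quotient of
`P_2(Σ_b)`. -/
def HasAdmissibleQuotient (b n : ℕ) : Prop :=
  ∃ (G : Type) (_ : Group G) (_ : Finite G) (φ : P2 b →* G),
    Function.Surjective φ ∧ 2 ≤ orderOf (φ (A12 b)) ∧ Nat.card G = n

open Pool.Agent.V11319

theorem rel_eq {b : ℕ} {x y : FreeGroup (Gen b)} (h : Rel b x y) :
    PresentedGroup.mk (relators b) x = PresentedGroup.mk (relators b) y := by
  have h1 : PresentedGroup.mk (relators b) (x * y⁻¹) = 1 :=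
    PresentedGroup.one_of_mem ⟨x, y, h, rfl⟩
  rw [map_mul, map_inv] at h1
  exact mul_inv_eq_one.1 h1

theorem comm_form {G : Type*} [Group G] {x y z : G} (h : ⁅x, y⁆ = z) : x * y * x⁻¹ = z * y := by
  rw [← h, commutatorElement_def]; group

theorem lower_bound (b : ℕ) (hb : 2 ≤ b) {G : Type*} [Group G] [Finite G] (φ : P2 b →* G)
    (hA : φ (A12 b) ≠ 1) : 2 ^ (2 * b + 1) ≤ Nat.card G := by
  let ψ : FreeGroup (Gen b) →* G := φ.comp (PresentedGroup.mk (relators b))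
  have hψ : ∀ {x y : FreeGroup (Gen b)}, Rel b x y → ψ x = ψ y := by
    intro x y h
    exact congrArg φ (rel_eq h)
  have hA' : ψ (aa b) ≠ 1 := hA
  refine BraidLower.lower b hb (fun j => ψ (r1 j)) (fun j => ψ (t1 j)) (fun j => ψ (r2 j))
    (fun j => ψ (t2 j)) (ψ (aa b)) hA' ?_ ?_
  · intro i
    have e1 := hψ (Rel.r1r2_eq i)
    have e2 := hψ (Rel.r1t2_eq i)
    have e3 := hψ (Rel.r1a i)
    have e4 := hψ (Rel.t1r2_eq i)
    have e5 := hψ (Rel.t1t2_eq i)
    have e6 := hψ (Rel.t1a i)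
    rw [map_commutatorElement] at e1 e2 e3 e4 e5 e6
    simp only [map_commutatorElement, map_mul, map_inv, map_one] at e1 e2 e3 e4 e5 e6
    constructor
    · rw [comm_form e1]; group
    · exact comm_form e2
    · rw [comm_form e3, commutatorElement_def]; group
    · exact comm_form e4
    · rw [comm_form e5, commutatorElement_def]; group
    · rw [comm_form e6, commutatorElement_def]; group
  · intro i j hij
    have e1 := hψ (Rel.r1r2_lt i j hij)
    have e2 := hψ (Rel.r1t2_lt i j hij)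
    have e3 := hψ (Rel.t1r2_lt i j hij)
    have e4 := hψ (Rel.t1t2_lt i j hij)
    rw [map_commutatorElement, map_one, commutatorElement_eq_one_iff_mul_comm] at e1 e2 e3 e4
    exact ⟨⟨e1, e2⟩, ⟨e3, e4⟩⟩

section Upper

open BraidUpper BraidUpper.Hei

variable {b : ℕ}

/-- The assignment of the generators to elements of the Heisenberg group. -/
def val (R T ρ τ : Fin b → Hei b) : Gen b → Hei b
  | Gen.rho1 j => R j
  | Gen.tau1 j => T j
  | Gen.rho2 j => ρ j
  | Gen.tau2 j => τ j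
  | Gen.a12 => zc 1

theorem zc1_sq : (zc 1 * zc 1 : Hei b) = 1 := by
  rw [zc_mul]; rfl

theorem zc1_inv : ((zc 1)⁻¹ : Hei b) = zc 1 := by
  rw [inv_eq_iff_mul_eq_one]; exact zc1_sq

theorem conj_zc (c : ZMod 2) (g : Hei b) : g⁻¹ * zc c * g = zc c := by
  rw [zc_comm, mul_assoc]; simp

theorem comm_zc_right (c : ZMod 2) (g : Hei b) : ⁅g, (zc c : Hei b)⁆ = 1 := by
  rw [commutatorElement_eq_one_iff_mul_comm]; exact zc_comm c g

theorem comm_zc_left (c : ZMod 2) (g : Hei b) : ⁅(zc c : Hei b), g⁆ = 1 := by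
  rw [commutatorElement_eq_one_iff_mul_comm]; exact (zc_comm c g).symm

theorem beta_inv_inv (g h : Hei b) : beta g⁻¹ h⁻¹ = beta g h := by
  simp [beta]

theorem beta_inv_left (g h : Hei b) : beta g⁻¹ h = beta g h := by
  simp [beta]

theorem prod_inv_rev (l : List (Fin b)) (t : Fin b → Hei b) :
    (l.reverse.map fun j => (t j)⁻¹).prod = ((l.map t).prod)⁻¹ := by
  rw [List.prod_inv_reverse, List.map_map, ← List.map_reverse]
  rfl

theorem relations_hold (R T ρ τ : Fin b → Hei b) (hc : Config R T ρ τ)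
    {x y : FreeGroup (Gen b)} (h : Rel b x y) :
    FreeGroup.lift (val R T ρ τ) x = FreeGroup.lift (val R T ρ τ) y := by
  have vr1 : ∀ j, FreeGroup.lift (val R T ρ τ) (r1 j) = R j := fun j => by simp [val]
  have vt1 : ∀ j, FreeGroup.lift (val R T ρ τ) (t1 j) = T j := fun j => by simp [val]
  have vr2 : ∀ j, FreeGroup.lift (val R T ρ τ) (r2 j) = ρ j := fun j => by simp [val]
  have vt2 : ∀ j, FreeGroup.lift (val R T ρ τ) (t2 j) = τ j := fun j => by simp [val]
  have va : FreeGroup.lift (val R T ρ τ) (aa b) = zc 1 := by simp [val]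
  have sumRT : ((List.finRange b).map fun j => beta (R j) (T j)).sum = 1 := by
    rw [← Fin.sum_univ_def]; exact hc.sRT
  have sumρτ : ((List.finRange b).map fun j => beta (ρ j) (τ j)).sum = 1 := by
    rw [← Fin.sum_univ_def]; exact hc.sρτ
  cases h with
  | surface1 =>
    rw [map_mul, map_list_prod, map_list_prod, List.map_map, List.map_map, va]
    have e1 : (⇑(FreeGroup.lift (val R T ρ τ)) ∘ fun j => ⁅(r1 j)⁻¹, (t1 j)⁻¹⁆ * (t1 j)⁻¹) =
        fun j => zc (beta (R j) (T j)) * (T j)⁻¹ := by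
      funext j
      simp only [Function.comp, map_mul, map_commutatorElement, map_inv, vr1, vt1, comm_eq,
        beta_inv_inv]
    have e2 : (⇑(FreeGroup.lift (val R T ρ τ)) ∘ fun j => t1 j) = T := by
      funext j
      exact vt1 j
    rw [e1, e2, prod_zc, prod_inv_rev, mul_assoc, inv_mul_cancel, mul_one, List.map_reverse,
      List.sum_reverse, sumRT]
  | surface2 =>
    rw [map_mul, map_list_prod, map_list_prod, List.map_map, List.map_map, map_inv, va, zc1_inv]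
    have e1 : (⇑(FreeGroup.lift (val R T ρ τ)) ∘ fun j => ⁅(r2 j)⁻¹, t2 j⁆ * t2 j) =
        fun j => zc (beta (ρ j) (τ j)) * τ j := by
      funext j
      simp only [Function.comp, map_mul, map_commutatorElement, map_inv, vr2, vt2, comm_eq,
        beta_inv_left]
    have e2 : (⇑(FreeGroup.lift (val R T ρ τ)) ∘ fun j => (t2 j)⁻¹) = fun j => (τ j)⁻¹ := by
      funext j
      simp only [Function.comp, map_inv, vt2]
    rw [e1, e2, prod_zc, prod_inv_rev, mul_assoc, mul_inv_cancel, mul_one, sumρτ]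
  | r1r2_lt j k h =>
    simp only [map_commutatorElement, vr1, vr2, map_one, comm_eq, hc.Rρ, zc_zero]
  | r1r2_eq j =>
    simp only [map_commutatorElement, vr1, vr2, map_one, comm_eq, hc.Rρ, zc_zero]
  | r1r2_gt j k h =>
    simp only [map_commutatorElement, map_mul, map_inv, vr1, vr2, va, comm_eq, hc.Rρ, zc_zero,
      zc1_inv]
    have e1 : zc 1 * ρ k * (ρ j)⁻¹ * zc 1 * ρ j * (ρ k)⁻¹ =
        zc 1 * (ρ k * ((ρ j)⁻¹ * zc 1 * ρ j)) * (ρ k)⁻¹ := by group
    rw [e1, conj_zc, zc_comm, ← mul_assoc, zc1_sq]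
    group
  | r1t2_lt j k h =>
    simp only [map_commutatorElement, vr1, vt2, map_one, comm_eq, hc.Rτ, if_neg h.ne, zc_zero]
  | r1t2_eq j =>
    simp only [map_commutatorElement, vr1, vt2, va, map_inv, comm_eq, hc.Rτ, if_true, zc1_inv]
  | r1t2_gt j k h =>
    simp only [map_commutatorElement, vr1, vt2, va, map_inv, zc1_inv, comm_zc_left]
    simp only [comm_eq, hc.Rτ, if_neg h.ne', zc_zero]
  | r1a j =>
    simp only [map_commutatorElement, vr1, vr2, va, map_inv, comm_zc_right]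
  | t1r2_lt j k h =>
    simp only [map_commutatorElement, vt1, vr2, map_one, comm_eq, hc.Tρ, if_neg h.ne, zc_zero]
  | t1r2_eq j =>
    simp only [map_commutatorElement, map_mul, vt1, vr2, vt2, va, map_inv, comm_eq, hc.Tρ,
      if_true, conj_zc]
  | t1r2_gt j k h =>
    simp only [map_commutatorElement, vt1, vt2, vr2, va, map_inv, comm_zc_right]
    simp only [comm_eq, hc.Tρ, if_neg h.ne', zc_zero]
  | t1t2_lt j k h =>
    simp only [map_commutatorElement, vt1, vt2, map_one, comm_eq, hc.Tτ, zc_zero]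
  | t1t2_eq j =>
    simp only [map_commutatorElement, vt1, vt2, va, map_inv, comm_zc_right]
    simp only [comm_eq, hc.Tτ, zc_zero]
  | t1t2_gt j k h =>
    simp only [map_commutatorElement, map_mul, map_inv, vt1, vt2, va, comm_eq, hc.Tτ, zc_zero,
      zc1_inv, conj_zc, zc1_sq, one_mul]
    have e1 : τ k * zc 1 * (τ j)⁻¹ * zc 1 * τ j * (τ k)⁻¹ =
        τ k * (zc 1 * ((τ j)⁻¹ * zc 1 * τ j)) * (τ k)⁻¹ := by group
    rw [e1, conj_zc, zc1_sq]
    group
  | t1a j =>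
    simp only [map_commutatorElement, vt1, vt2, va, map_inv, comm_zc_right]

theorem upper_bound (b : ℕ) (hb : 2 ≤ b) : HasAdmissibleQuotient b (2 ^ (2 * b + 1)) := by
  obtain ⟨R, T, ρ, τ, hc⟩ := exists_config b hb
  have hrel : ∀ r ∈ relators b, FreeGroup.lift (val R T ρ τ) r = 1 := by
    rintro r ⟨x, y, hxy, rfl⟩
    rw [map_mul, map_inv, relations_hold R T ρ τ hc hxy, mul_inv_cancel]
  let φ : P2 b →* Hei b := PresentedGroup.toGroup hrel
  have hφA : φ (A12 b) = zc 1 := PresentedGroup.toGroup.of hrel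
  have hne : (zc 1 : Hei b) ≠ 1 := by
    intro h
    have := congrArg Hei.z h
    exact one_ne_zero (α := ZMod 2) this
  have hneR : φ.rangeRestrict (A12 b) ≠ 1 := by
    intro h
    apply hne
    rw [← hφA]
    exact congrArg Subtype.val h
  refine ⟨φ.range, inferInstance, inferInstance, φ.rangeRestrict, φ.rangeRestrict_surjective,
    ?_, ?_⟩
  · have h1 : orderOf (φ.rangeRestrict (A12 b)) ≠ 1 := fun h => hneR (orderOf_eq_one_iff.1 h)
    have h2 : 0 < orderOf (φ.rangeRestrict (A12 b)) := orderOf_pos _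
    omega
  · apply le_antisymm
    · rw [← card_eq (b := b)]
      exact Nat.card_le_card_of_injective _ Subtype.val_injective
    · exact lower_bound b hb φ.rangeRestrict hneR

end Upper

/-- **Main theorem**: for every `b ≥ 2` the least order of an admissible quotient of
`P_2(Σ_b)` is `2 ^ (2 b + 1)`. -/
theorem result (b : ℕ) (hb : 2 ≤ b) :
    IsLeast {n : ℕ | HasAdmissibleQuotient b n} (2 ^ (2 * b + 1)) := by
  refine ⟨upper_bound b hb, ?_⟩
  rintro n ⟨G, _, _, φ, _, h2, rfl⟩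
  apply lower_bound b hb φ
  intro h
  rw [h, orderOf_one] at h2
  omega

end Pool.Agent.Results.MP_97f678_al.MinQuotient
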